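import Pool.Agent.H27.QD

namespace Pool.Agent.Results.MP_dac99f_nt.Blocks
open Finset Polynomial Pool.Agent.H27.QC Pool.Agent.H27.QC.Loc Pool.Agent.H27.QD

/-- the shifted factorial `(a; b)_k` -/
def poch {K : Type*} [Field K] (a b : K) (k : ℕ) : K := ∏ i ∈ range k, (1 - a * b ^ i)

/-- the `q`-integer `[N]` -/
def qint {K : Type*} [Field K] (q : K) (N : ℕ) : K := (1 - q ^ N) / (1 - q)

/-- the rising factorial `(x)_k` -/
def rising (x : ℚ) (k : ℕ) : ℚ := ∏ i ∈ range k, (x + i)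

/-- `S_{m,n}(q)` -/
def S {K : Type*} [Field K] (q : K) (m n : ℕ) : K := ∑ k ∈ range (m * n),
  (-1) ^ k * qint q (4 * k + 1) * q ^ (k ^ 2) * (poch q (q ^ 2) k ^ 3 / poch (q ^ 2) (q ^ 2) k ^ 3)

/-- `c_m` -/
def c (m : ℕ) : ℚ :=
  ∑ k ∈ range m, (-1) ^ k * (4 * k + 1) * (rising (1 / 2) k ^ 3 / (k.factorial : ℚ) ^ 3)

/-- the right-hand side -/
def T {K : Type*} [Field K] (q : K) (m n : ℕ) : K :=
  (-1) ^ ((n - 1) / 2) * q ^ ((n - 1) ^ 2 / 4) * qint q n * (c m : K)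

/-- congruence modulo `Φ_n(q) ^ 2` -/
def Cong (n : ℕ) (A B : RatFunc ℚ) : Prop := ∃ P Q : ℚ[X], IsCoprime Q (cyclotomic n ℚ) ∧
  cyclotomic n ℚ ^ 2 ∣ P ∧ A - B = algebraMap _ _ P / algebraMap _ _ Q

variable {K : Type*} [Field K]

theorem poch_rho (q : K) (k : ℕ) :
    poch q (q ^ 2) k ^ 3 / poch (q ^ 2) (q ^ 2) k ^ 3 = rho (q ^ 1) k 1 ^ 3 := by
  rw [← div_pow, rho, prod_div_distrib, poch, poch]
  congr 2 <;> exact prod_congr rfl fun i _ => by ring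

def tt (q : K) (b : ℕ) (y : K) : K :=
  (-1) ^ b * (1 - y ^ 2 * q ^ (4 * b + 1)) * y ^ b * q ^ (b ^ 2) * rho (q ^ 1) b y ^ 3

variable [CharZero K] {L : Loc K} {h : ℕ} (hn : L.n = 2 * h + 1)
include hn

theorem hs1 : ∀ j, L.n ∣ 1 * j → L.n ∣ j := fun j h => by simpa using h

theorem tt_TG {b : ℕ} (hb : b < L.n) : L.TG (tt L.q b) :=
  ((((TG.const (pow_mem (neg_mem (one_mem _)) b)).mul ((TG.const (one_mem _)).sub
    ((TG.id.pow 2).mul (TG.const (L.qp _))))).mul (TG.id.pow b)).mul (TG.const (L.qp _))).mul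
      ((rho_TG hn (hs1 hn) hb).pow 3)

theorem closed : ∑ b ∈ range (h + 1), (-1) ^ b * (1 - L.q ^ (4 * b + 1)) * L.q ^ (b ^ 2)
    * (rho (L.q ^ 1) b 1 * (rho (L.q ^ 1) b (L.q ^ L.n) * rho (L.q ^ 1) b (L.q ^ L.n)⁻¹))
      = (-1) ^ h * L.q ^ (h ^ 2) * (1 - L.q ^ L.n) := by
  have q0 := L.q0
  have hQ : L.q ^ L.n = L.q * (L.q ^ 2) ^ h := by rw [hn]; ring
  have h2 : ∀ i, 1 - L.q * (L.q ^ 2 * (L.q ^ 2) ^ i) / (L.q * L.q ^ L.n) ≠ 0 := fun i h0 => by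
    have : L.q ^ L.n = L.q ^ (2 * i + 2) := by field_simp at h0; linear_combination h0
    have := q_inj this; omega
  have h4 : ∀ i, 1 - L.q * (L.q ^ 2 * (L.q ^ 2) ^ i) ≠ 0 := fun i => by
    have := L.ne (2 * i + 3) (by omega); rwa [show L.q ^ (2 * i + 3) = L.q * (L.q ^ 2 * (L.q ^ 2) ^ i) by ring] at this
  have := six5 L.q (L.q * L.q ^ L.n) 0 (L.q ^ 2) (pow_ne_zero _ q0)
    (mul_ne_zero q0 (pow_ne_zero _ q0))
    (fun i => by rw [← pow_succ', ← pow_mul]; exact L.ne _ (by omega)) h2 (by simp) h4 h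
  have e1 : ∀ b, uu L.q (L.q * L.q ^ L.n) 0 (L.q ^ 2) ((L.q ^ 2) ^ h) b = (-1) ^ b * L.q ^ (b ^ 2)
      * (rho (L.q ^ 1) b 1 * (rho (L.q ^ 1) b (L.q ^ L.n) * rho (L.q ^ 1) b (L.q ^ L.n)⁻¹)) := by
    intro b
    have e : ∀ b : ℕ, (-1) ^ b * L.q ^ (b ^ 2) = ∏ i ∈ range b, -L.q ^ (2 * i + 1) := by
      intro b
      induction b with
      | zero => simp
      | succ b ih => rw [prod_range_succ, ← ih]; ring
    rw [e, rho, rho, rho, ← prod_mul_distrib, ← prod_mul_distrib, ← prod_mul_distrib, uu]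
    refine prod_congr rfl fun i _ => ?_
    rw [div_mul_div_comm, div_mul_div_comm, ← mul_div_assoc (-L.q ^ (2 * i + 1)), hQ]
    refine congrArg₂ (fun x y : K => x / y) ?_ ?_ <;> field_simp <;> ring
  simp only [e1] at this
  have e2 : ∀ N : ℕ, (1 - L.q) * ∏ i ∈ range N, (1 - L.q * (L.q ^ 2 * (L.q ^ 2) ^ i))
      = (∏ i ∈ range N, (1 - L.q ^ (2 * i + 1))) * (1 - L.q * (L.q ^ 2) ^ N) := by
    intro N
    induction N with
    | zero => simp
    | succ N ih => rw [prod_range_succ, prod_range_succ, ← mul_assoc, ih]; ring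
  have e3 : (∏ i ∈ range h, (1 - L.q * (L.q ^ 2 * (L.q ^ 2) ^ i) / (L.q * L.q ^ L.n)))
      * ((-1) ^ h * L.q ^ (h ^ 2)) = ∏ i ∈ range h, (1 - L.q ^ (2 * i + 1)) := by
    have e : ∀ b : ℕ, (-1) ^ b * L.q ^ (b ^ 2) = ∏ i ∈ range b, -L.q ^ (2 * i + 1) := by
      intro b
      induction b with
      | zero => simp
      | succ b ih => rw [prod_range_succ, ← ih]; ring
    rw [e, ← prod_range_reflect, ← prod_mul_distrib]
    refine prod_congr rfl fun i hi => ?_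
    have := mem_range.mp hi
    rw [show L.n = 2 * (h - 1 - i) + 2 + (2 * i + 1) by omega]
    field_simp
    ring
  simp only [mul_zero, zero_mul, zero_div, sub_zero, mul_one, prod_div_distrib] at this
  rw [← mul_div_assoc, e2, ← e3, ← hQ, mul_assoc,
    mul_div_cancel_left₀ _ (prod_ne_zero_iff.mpr fun i _ => h2 i)] at this
  rw [← this]
  exact sum_congr rfl fun b _ => by ring

theorem G_one : L.E 2 (∑ b ∈ range (h + 1), tt L.q b 1)
    (L.e * -((-1) ^ h * L.q ^ (h ^ 2))) := by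
  refine E.trans (E.sum _ fun b hb => ?_) (E.of_eq ((closed hn).trans (by unfold e; ring)))
  have hb' : b < L.n := by have := mem_range.mp hb; omega
  refine ((rho_pair hn (hs1 hn) hb' (Nr.qn 1)).symm.smul (z := (-1) ^ b * (1 - L.q ^ (4 * b + 1))
    * L.q ^ (b ^ 2) * rho (L.q ^ 1) b 1) (mul_mem (mul_mem (mul_mem (pow_mem (neg_mem (one_mem _)) b)
      (sub_mem (one_mem _) (L.qp _))) (L.qp _)) (rho_TG hn (hs1 hn) hb').1)).of_sub ?_
  unfold tt; simp only [pow_one]; ring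

theorem G_refl : ∑ b ∈ range (h + 1), tt L.q b 1
    = -((-1) ^ h * (L.q ^ L.n) ^ 2 * L.q ^ (h ^ 2) / L.q * rho (L.q ^ 1) h 1 ^ 3)
      * ∑ b ∈ range (h + 1), tt L.q b (L.q ^ L.n)⁻¹ := by
  have q0 := L.q0
  rw [← sum_range_reflect, mul_sum]
  refine sum_congr rfl fun b hb => ?_
  obtain ⟨d, hd⟩ : ∃ d, d + b = h := ⟨h - b, by have := mem_range.mp hb; omega⟩
  rw [show h + 1 - 1 - b = d by omega, tt, tt,
    rho_reflect hn (hs1 hn) hd (z := (L.q ^ L.n)⁻¹) Nr.one (by field_simp), hn]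
  generalize rho (L.q ^ 1) h 1 = A
  generalize rho (L.q ^ 1) b (L.q ^ (2 * h + 1))⁻¹ = B
  subst hd
  have : ((-1 : K) ^ b) ^ 2 = 1 := by rw [← pow_mul, mul_comm, pow_mul]; simp
  have e : (-1 : K) ^ d = (-1) ^ (d + b) * (-1) ^ b := by linear_combination (-(-1) ^ d) * this
  rw [e]
  simp only [inv_pow]
  field_simp
  ring

theorem G_all (y c : K) (hy : Nr L y c) : L.E 2 (∑ b ∈ range (h + 1), tt L.q b y)
    ((1 + 2 * c) * (L.e * -((-1) ^ h * L.q ^ (h ^ 2)))) := by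
  obtain ⟨h1, D, hD, hG⟩ : L.TG fun y => ∑ b ∈ range (h + 1), tt L.q b y :=
    TG.sum _ fun b hb => tt_TG hn (by have := mem_range.mp hb; omega)
  have hA : -((-1) ^ h * L.q ^ (h ^ 2)) ∈ L.O :=
    neg_mem (mul_mem (pow_mem (neg_mem (one_mem _)) _) (L.qp _))
  have k1 : L.E 1 ((-1) ^ h * (L.q ^ L.n) ^ 2 * L.q ^ (h ^ 2) / L.q * rho (L.q ^ 1) h 1 ^ 3) 1 := by
    have a1 := ((rho_half hn (hs1 hn)).pow (pow_mem (neg_mem (one_mem _)) _) 3).smul
      (pow_mem (neg_mem (one_mem _)) h)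
    have a2 := ((Nr.qn (L := L) 2).mul (Nr.qn (h + 1)).inv).near
    refine (a1.mul a2 (mul_mem (pow_mem (neg_mem (one_mem _)) h)
      (pow_mem (pow_mem (neg_mem (one_mem _)) h) 3)) (one_mem _)).of_sub ?_
    have q0 := L.q0
    have : (-1 : K) ^ h * ((-1) ^ h) ^ 3 = 1 := by rw [← pow_succ', ← pow_mul, mul_comm, pow_mul]; norm_num
    rw [this, hn]
    field_simp
    ring
  have hz := (Nr.qn (L := L) 1).inv
  have k2 := hG _ _ hz.1 hz.2
  have k3 := G_one hn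
  have k4 : L.E 1 (∑ b ∈ range (h + 1), tt L.q b ((L.q ^ L.n) ^ 1)⁻¹) 0 :=
    ((((k2.add k3).mono (by norm_num)).add (E.e_zero hA)).add (E.e_zero (mul_mem hz.1 hD))).of_sub
      (by ring)
  have k5 := k1.mul_zero k4
  have k6 := G_refl hn
  simp only [pow_one] at *
  refine ((hG y c hy.1 hy.2).add (((k5.add k2).neg.smul (neg_mem hy.1)).add
    (k3.smul (add_mem (one_mem _) (mul_mem (L.nat_mem 2) hy.1))))).of_sub ?_
  push_cast
  linear_combination (-c) * k6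

theorem main (hh : 0 < h) (m : ℕ) : L.E 2 (S L.q m L.n) (T L.q m L.n) := by
  have hU : L.U (1 - L.q) := by
    simpa using U.sub (L := L) (j := 1) (by rw [Nat.dvd_one]; omega)
  obtain ⟨l, -, hl⟩ := TG_nr (rho_TG hn (hs1 hn) (b := h) (by omega))
    (rho_U hn (hs1 hn) le_rfl Nr.one)
  have e1 : (L.n - 1) / 2 = h := by omega
  have e2 : (L.n - 1) ^ 2 / 4 = h ^ 2 := by
    rw [hn, Nat.add_sub_cancel, mul_pow]; exact Nat.mul_div_cancel_left _ (by norm_num)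
  rw [S, T, c, sum_blocks, e1, e2]
  push_cast
  rw [mul_sum]
  refine E.sum _ fun a _ => ?_
  have hY := Nr.qn (L := L) (2 * a)
  have hw : L.U (ww a : K) := U.rat (by unfold ww asc; positivity)
  have k1 := (((rho_blocks hn (hs1 hn) one_ne_zero hl a).pow 3).mul (Nr.qn (a ^ 2 * L.n))).near
  have k2 := G_all hn _ _ hY
  have k3 : L.E 2 (∑ b ∈ range L.n, tt L.q b ((L.q ^ L.n) ^ (2 * a)))
      (∑ b ∈ range (h + 1), tt L.q b ((L.q ^ L.n) ^ (2 * a))) := by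
    rw [show L.n = h + 1 + h by omega, sum_range_add, ← show L.n = h + 1 + h by omega]
    refine (E.sum (range h) (f := fun b => tt L.q (h + 1 + b) ((L.q ^ L.n) ^ (2 * a)))
      (g := fun _ => 0) fun b hb => ?_).of_sub (by simp)
    have hb' : h + 1 + b < L.n := by have := mem_range.mp hb; omega
    have z := rho_zero hn (hs1 hn) hb' (by omega) hY
    refine ((z.mul_zero z).smul (mul_mem (mul_mem (mul_mem (mul_mem
      (pow_mem (neg_mem (one_mem _)) (h + 1 + b)) (sub_mem (one_mem _) (mul_mem (pow_mem hY.U.1 2)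
        (L.qp (4 * (h + 1 + b) + 1))))) (pow_mem hY.U.1 (h + 1 + b))) (L.qp ((h + 1 + b) ^ 2)))
          (rho_mem hn (hs1 hn) hb' hY))).of_sub ?_
    unfold tt; ring
  have hA : (1 + 2 * ((2 * a : ℕ) : K)) * -((-1) ^ h * L.q ^ (h ^ 2)) ∈ L.O :=
    mul_mem (add_mem (one_mem _) (mul_mem (L.nat_mem 2) (L.nat_mem _)))
      (neg_mem (mul_mem (pow_mem (neg_mem (one_mem _)) _) (L.qp _)))
  have k4 := k3.trans k2
  have k5 : L.E 1 (∑ b ∈ range L.n, tt L.q b ((L.q ^ L.n) ^ (2 * a))) 0 :=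
    ((k4.mono (by norm_num)).add (E.e_zero hA)).of_sub (by ring)
  refine (((k1.mul_zero k5).add k4).smul (z := (-1) ^ a * (ww a : K) ^ 3 / (1 - L.q))
    (div_mem' (mul_mem (pow_mem (neg_mem (one_mem _)) a) (pow_mem hw.1 3)) hU)).of_sub ?_
  have e3 : ∀ b, (-1) ^ (a * L.n + b) * qint L.q (4 * (a * L.n + b) + 1) * L.q ^ ((a * L.n + b) ^ 2)
      * (poch L.q (L.q ^ 2) (a * L.n + b) ^ 3 / poch (L.q ^ 2) (L.q ^ 2) (a * L.n + b) ^ 3)
      = (-1) ^ a * rho (L.q ^ 1) (a * L.n) 1 ^ 3 * (L.q ^ L.n) ^ (a ^ 2 * L.n) / (1 - L.q)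
        * tt L.q b ((L.q ^ L.n) ^ (2 * a)) := by
    intro b
    have : (-1 : K) ^ (a * L.n + b) = (-1) ^ a * (-1) ^ b := by
      rw [pow_add, mul_comm a, pow_mul, Odd.neg_one_pow ⟨h, hn⟩]
    rw [poch_rho, rho_add, this, tt, qint,
      show 1 * (L.q ^ 1) ^ (2 * (a * L.n)) = (L.q ^ L.n) ^ (2 * a) by ring]
    ring
  have e4 : (rising (1 / 2) a : K) ^ 3 / (a.factorial : K) ^ 3 = (ww a : K) ^ 3 := by
    rw [← div_pow, ww]; push_cast; rfl
  simp only [e3]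
  rw [← mul_sum, e4, qint]
  have := hw.2.2
  have := hU.2.2
  unfold e
  push_cast
  field_simp
  ring

omit hn in
theorem result : (∀ m n : ℕ, 0 < m → Odd n → 1 < n → Cong n (S RatFunc.X m n) (T RatFunc.X m n)) ∧
    ¬ Cong 1 (S RatFunc.X 2 1) (T RatFunc.X 2 1) := by
  constructor
  · rintro m n - ⟨h, hn⟩ h1
    obtain ⟨A, B, hB, e⟩ := cyc_out (by omega) (main (L := cycL n (by omega)) hn (by omega) m)
    exact ⟨_, B, hB, dvd_mul_right _ _, e⟩
  · rintro ⟨P, Q, hQ, hP, e⟩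
    have hQ0 := RatFunc.algebraMap_ne_zero (K := ℚ) (cyc_ne one_pos hQ)
    have h1 : (1 - RatFunc.X : RatFunc ℚ) ≠ 0 := by
      have := (cycL 1 one_pos).ne 1 one_pos
      rwa [pow_one] at this
    have h2 : (1 - RatFunc.X ^ 2 : RatFunc ℚ) ≠ 0 := (cycL 1 one_pos).ne 2 two_pos
    have h3 : (1 + RatFunc.X : RatFunc ℚ) ≠ 0 := fun h => h2 (by linear_combination (1 - RatFunc.X) * h)
    have e2 : (S RatFunc.X 2 1 - T RatFunc.X 2 1 : RatFunc ℚ) * (8 * (1 + RatFunc.X) ^ 3)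
        = 5 * (1 + RatFunc.X) ^ 3
          - 8 * RatFunc.X * (1 + RatFunc.X + RatFunc.X ^ 2 + RatFunc.X ^ 3 + RatFunc.X ^ 4) := by
      simp only [S, T, c, qint, poch, rising, sum_range_succ, prod_range_succ]
      norm_num
      rw [show (1 - RatFunc.X ^ 2 : RatFunc ℚ) = (1 - RatFunc.X) * (1 + RatFunc.X) by ring]
      field_simp
      ring
    rw [e, div_mul_eq_mul_div, div_eq_iff hQ0] at e2
    have e3 : P * (8 * (1 + X) ^ 3)
        = (5 * (1 + X) ^ 3 - 8 * X * (1 + X + X ^ 2 + X ^ 3 + X ^ 4)) * Q := by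
      apply RatFunc.algebraMap_injective ℚ
      simpa [map_ofNat] using e2
    obtain ⟨M, hM⟩ := (hQ.symm.pow_left (m := 2)).dvd_of_dvd_mul_right (e3 ▸ hP.mul_right _)
    have := congrArg (fun f => eval 1 (derivative f)) hM
    simp [cyclotomic_one, derivative_mul, derivative_pow] at this
    norm_num at this

end Pool.Agent.Results.MP_dac99f_nt.Blocks
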